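import Pool.Agent.H49.TRN.S1
import Pool.Agent.H49.FOS.TER

/-! Row LOW of the board `trn`: the dimension count. -/

set_option autoImplicit false

namespace Pool.TRN

open MvPolynomial Pool.FOS Pool.FOS.TER

theorem t_low : LOWStmt := by
  intro n k d s hlt ⟨P, hP, hPF⟩
  have hnot : ¬ AlgebraicIndependent ℂ (ph n k d s) := by
    intro h
    have h1 := h.cardinalMk_le_trdeg
    rw [MvPolynomial.trdeg_of_isDomain, Cardinal.lift_id] at h1
    rw [Cardinal.mk_fintype, Cardinal.mk_fintype, Nat.cast_le, Fintype.card_prod,
      Fintype.card_fin] at h1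
    rw [Nat.card_eq_fintype_card, Nat.card_eq_fintype_card] at hlt
    exact absurd h1 (not_le.2 hlt)
  obtain ⟨R, hR, hR0⟩ : ∃ R : MvPolynomial (Ex n (k * d)) ℂ, aeval (ph n k d s) R = 0 ∧ R ≠ 0 := by
    rw [algebraicIndependent_iff] at hnot
    push Not at hnot
    exact hnot
  have hz : P * R = 0 := by
    refine MvPolynomial.funext fun y => ?_
    rw [map_mul, map_zero]
    by_cases hy : eval y P = 0
    · rw [hy, zero_mul]
    · have hc : (fun m : Ex n (k * d) => coeff m.1 (frm y)) = y := by
        funext m
        rw [coeff_frm, dif_pos m.2]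
      obtain ⟨g, hg, hF⟩ := hPF (frm y) (frm_hom y) (by rw [hc]; exact hy)
      set u : Mx n d s → ℂ := fun j => coeff j.2.1 (g j.1) with hu
      have h1 : ∀ m, eval u (ph n k d s m) = y m := by
        intro m
        rw [eval_ph]
        have h2 : ∀ i, (frm fun μ : Ex n d => u (i, μ)) = g i := fun i => frm_coeff (hg i)
        simp only [h2]
        rw [← hF, coeff_frm, dif_pos m.2]
      have h3 : eval u (aeval (ph n k d s) R) = eval y R := by
        have h4 : (eval u).comp (aeval (ph n k d s) : MvPolynomial (Ex n (k * d)) ℂ →ₐ[ℂ]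
            MvPolynomial (Mx n d s) ℂ).toRingHom = eval y := by
          refine MvPolynomial.ringHom_ext (fun r => ?_) fun m => ?_
          · simp
          · simp [h1 m]
        exact DFunLike.congr_fun h4 R
      rw [hR, map_zero] at h3
      rw [← h3, mul_zero]
  rcases mul_eq_zero.1 hz with h | h
  · exact hP h
  · exact hR0 h

end Pool.TRN
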