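import Pool.Agent.H49.TRN.S1

/-! Row DIF of the board `trn`: the conditions at a point. -/

set_option autoImplicit false

namespace Pool.TRN

open MvPolynomial Pool.FOS

namespace DIFrow

/-- A derivation lowers the power of an ideal by one. -/
theorem der_pow (I : Ideal (MvPolynomial (Fin 2) ℂ))
    (D : Derivation ℂ (MvPolynomial (Fin 2) ℂ) (MvPolynomial (Fin 2) ℂ)) (r : ℕ) :
    ∀ A ∈ I ^ (r + 1), D A ∈ I ^ r := by
  induction r with
  | zero =>
    intro A _
    rw [pow_zero, Ideal.one_eq_top]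
    trivial
  | succ r ih =>
    intro A hA
    rw [pow_succ] at hA
    refine Submodule.mul_induction_on hA ?_ ?_
    · intro x hx y hy
      rw [Derivation.leibniz, smul_eq_mul, smul_eq_mul]
      refine add_mem (Ideal.mul_mem_right _ _ hx) ?_
      have h : D x * y ∈ I ^ (r + 1) := by
        rw [pow_succ]
        exact Ideal.mul_mem_mul (ih x hx) hy
      rw [mul_comm]
      exact h
    · intro x y hx hy
      rw [map_add]
      exact add_mem hx hy

/-- The sum over the exponents. -/
noncomputable def psi (P : Fin 2 → ℂ) (A : MvPolynomial (Fin 2) ℂ) (i j : ℕ) : ℂ :=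
  ∑ a ∈ A.support, coeff a A * ((a 0 : ℂ) ^ i * (a 1 : ℂ) ^ j) * (P 0 ^ a 0 * P 1 ^ a 1)

theorem psi_sup (P : Fin 2 → ℂ) (A : MvPolynomial (Fin 2) ℂ) (i j : ℕ)
    (S : Finset (Fin 2 →₀ ℕ)) (hS : A.support ⊆ S) :
    psi P A i j = ∑ a ∈ S, coeff a A * ((a 0 : ℂ) ^ i * (a 1 : ℂ) ^ j) * (P 0 ^ a 0 * P 1 ^ a 1) := by
  refine Finset.sum_subset hS fun a _ ha => ?_
  rw [MvPolynomial.notMem_support_iff.1 ha, zero_mul, zero_mul]

theorem coeff_theta (l : Fin 2) (A : MvPolynomial (Fin 2) ℂ) (a : Fin 2 →₀ ℕ) :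
    coeff a (X l * pderiv l A) = a l * coeff a A := by
  classical
  induction A using MvPolynomial.induction_on' with
  | monomial u c =>
    rw [pderiv_monomial, X, monomial_mul, one_mul]
    by_cases h : u l = 0
    · rw [h, Nat.cast_zero, mul_zero, monomial_zero, coeff_zero, coeff_monomial]
      split_ifs with h1
      · rw [← h1, h, Nat.cast_zero, zero_mul]
      · rw [mul_zero]
    · have h2 : Finsupp.single l 1 + (u - Finsupp.single l 1) = u := by
        rw [add_comm]
        refine tsub_add_cancel_of_le ?_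
        rw [Finsupp.single_le_iff]
        omega
      rw [h2, coeff_monomial, coeff_monomial]
      split_ifs with h1
      · rw [← h1]
        ring
      · rw [mul_zero]
  | add p q hp hq =>
    rw [map_add, mul_add, coeff_add, coeff_add, hp, hq]
    ring

theorem supp_theta (l : Fin 2) (A : MvPolynomial (Fin 2) ℂ) :
    (X l * pderiv l A).support ⊆ A.support := by
  intro a ha
  rw [mem_support_iff] at ha ⊢
  intro h
  apply ha
  rw [coeff_theta, h, mul_zero]

theorem psi_eval (P : Fin 2 → ℂ) (A : MvPolynomial (Fin 2) ℂ) : psi P A 0 0 = eval P A := by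
  rw [eval_eq']
  unfold psi
  refine Finset.sum_congr rfl fun a _ => ?_
  rw [Fin.prod_univ_two]
  ring

theorem psi_zero (P : Fin 2 → ℂ) : ∀ (N m : ℕ) (A : MvPolynomial (Fin 2) ℂ) (i j : ℕ),
    i + j = N → N < m → A ∈ mI P ^ m → psi P A i j = 0 := by
  intro N
  induction N with
  | zero =>
    intro m A i j hij hm hA
    obtain rfl : i = 0 := by omega
    obtain rfl : j = 0 := by omega
    rw [psi_eval]
    have h1 : A ∈ mI P := Ideal.pow_le_self (by omega) hA
    have h2 : mI P ≤ RingHom.ker (eval P) := by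
      unfold mI
      rw [Ideal.span_le]
      rintro _ ⟨i, rfl⟩
      show eval P (X i - C (P i)) = 0
      simp
    exact h2 h1
  | succ N ih =>
    intro m A i j hij hm hA
    obtain ⟨r, rfl⟩ : ∃ r, m = r + 1 := ⟨m - 1, by omega⟩
    have hmem : ∀ l : Fin 2, X l * pderiv l A ∈ mI P ^ r := fun l =>
      Ideal.mul_mem_left _ _ (der_pow _ (pderiv l) r A hA)
    rcases i with _ | i
    · obtain ⟨j, rfl⟩ : ∃ j', j = j' + 1 := ⟨j - 1, by omega⟩
      have h := ih r (X 1 * pderiv 1 A) 0 j (by omega) (by omega) (hmem 1)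
      rw [psi_sup P _ 0 j A.support (supp_theta 1 A)] at h
      rw [← h]
      unfold psi
      refine Finset.sum_congr rfl fun a _ => ?_
      rw [coeff_theta]
      ring
    · have h := ih r (X 0 * pderiv 0 A) i j (by omega) (by omega) (hmem 0)
      rw [psi_sup P _ i j A.support (supp_theta 0 A)] at h
      rw [← h]
      unfold psi
      refine Finset.sum_congr rfl fun a _ => ?_
      rw [coeff_theta]
      ring

end DIFrow

open DIFrow in
theorem t_dif : DIFStmt := by
  intro m P A hA q hq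
  have h1 : ∀ a : Fin 2 →₀ ℕ, eval (fun i => (a i : ℂ)) q =
      ∑ e ∈ q.support, coeff e q * ((a 0 : ℂ) ^ e 0 * (a 1 : ℂ) ^ e 1) := by
    intro a
    rw [eval_eq']
    refine Finset.sum_congr rfl fun e _ => ?_
    rw [Fin.prod_univ_two]
  simp only [h1, Finset.mul_sum, Finset.sum_mul]
  rw [Finset.sum_comm]
  refine Finset.sum_eq_zero fun e he => ?_
  have h2 : ∑ a ∈ A.support, coeff a A * (coeff e q * ((a 0 : ℂ) ^ e 0 * (a 1 : ℂ) ^ e 1)) *
      (P 0 ^ a 0 * P 1 ^ a 1) = coeff e q * psi P A (e 0) (e 1) := by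
    unfold psi
    rw [Finset.mul_sum]
    refine Finset.sum_congr rfl fun a _ => ?_
    ring
  rw [h2]
  have h3 : e 0 + e 1 ≤ q.totalDegree := by
    have := le_totalDegree he
    rw [Finsupp.sum_fintype _ _ (fun _ => rfl), Fin.sum_univ_two] at this
    exact this
  rw [psi_zero P (e 0 + e 1) m A (e 0) (e 1) rfl (by omega) hA, mul_zero]

end Pool.TRN
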