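import Pool.Agent.H49.TRN.S1

/-! Row VNT of the board `trn`: the vanishing theorem. -/

set_option autoImplicit false

namespace Pool.TRN

open MvPolynomial Pool.FOS

/-- The exponent with two given values. -/
noncomputable def VNTe (a : ℕ × ℕ) : Fin 2 →₀ ℕ := Finsupp.equivFunOnFinite.symm ![a.1, a.2]

theorem t_vnt (hDIF : DIFStmt) : VNTStmt := by
  intro m s D ⟨P, hP⟩
  refine ⟨fun i => ![(P i).1, (P i).2], fun A hA hmem => ?_⟩
  classical
  have he : ∀ b : Fin 2 →₀ ℕ, VNTe (b 0, b 1) = b := by
    intro b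
    ext l
    fin_cases l <;> rfl
  have hev : ∀ (a : ℕ × ℕ) (q : MvPolynomial (Fin 2) ℂ),
      ev a q = eval (fun i => (VNTe a i : ℂ)) q := by
    intro a q
    unfold ev
    have h : ![(a.1 : ℂ), (a.2 : ℂ)] = fun i => (VNTe a i : ℂ) := by
      funext l
      fin_cases l <;> rfl
    rw [h]
  have hsup : ∀ b ∈ A.support, (b 0, b 1) ∈ Tri D := by
    intro b hb
    have h := le_totalDegree hb
    rw [Finsupp.sum_fintype _ _ (fun _ => rfl), Fin.sum_univ_two] at h
    unfold Tri box
    rw [Finset.mem_filter, Finset.mem_product, Finset.mem_range, Finset.mem_range]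
    exact ⟨⟨by show b 0 < D + 1; omega, by show b 1 < D + 1; omega⟩, by
      show b 0 + b 1 ≤ D; omega⟩
  have hc := hP (fun a => coeff (VNTe a) A) ?_
  · ext b
    rw [coeff_zero]
    by_contra hb
    have h1 := hc (b 0, b 1) (hsup b (mem_support_iff.2 hb))
    simp only [he] at h1
    exact hb h1
  · intro i q hq
    have h := hDIF m _ A (hmem i) q hq
    simp only [Matrix.cons_val_zero, Matrix.cons_val_one] at h
    rw [← h]
    symm
    refine Finset.sum_bij_ne_zero (fun b _ _ => (b 0, b 1)) ?_ ?_ ?_ ?_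
    · intro b hb _
      exact hsup b hb
    · intro b _ _ b' _ _ hbb
      rw [← he b, ← he b', hbb]
    · intro a ha hne
      refine ⟨VNTe a, ?_, ?_, ?_⟩
      · rw [mem_support_iff]
        intro h0
        apply hne
        simp only [h0, zero_mul]
      · intro h0
        apply hne
        rw [← h0, hev]
        rfl
      · rfl
    · intro b _ _
      show coeff b A * (eval fun i => (b i : ℂ)) q * ((P i).1 ^ b 0 * (P i).2 ^ b 1) =
        coeff (VNTe (b 0, b 1)) A * ev (b 0, b 1) q * ((P i).1 ^ b 0 * (P i).2 ^ b 1)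
      rw [hev, he]

end Pool.TRN
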